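import Pool.Agent.H18.HX.Targets

/-!
# MP_0cda1a_ag, row NFB: the equation of the image
-/

set_option autoImplicit false

open MvPolynomial
open Pool.Agent.H12.ZD (pmap v O Res DenseOrbit NoInv)
open Pool.Agent.H18.HIT Pool.Agent.H18.HX

namespace Pool.Agent.H68.HX

namespace NFB

lemma comp_aeval {L M : ℕ} {k : Type} [Field k] (l : Fin M → Po L k)
    (hl : ∀ i, (l i).IsHomogeneous 1) (q : Po M k) (t : ℕ) :
    homogeneousComponent t (aeval l q) = aeval l (homogeneousComponent t q) := by
  have hh : ∀ i, (aeval l (homogeneousComponent i q)).IsHomogeneous i := fun i => by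
    have h1 := (homogeneousComponent_isHomogeneous i q).aeval l hl
    rwa [one_mul] at h1
  have hc : ∀ i, homogeneousComponent t (aeval l (homogeneousComponent i q)) =
      if t = i then aeval l (homogeneousComponent i q) else 0 := fun i =>
    homogeneousComponent_of_mem (hh i)
  conv_lhs => rw [← sum_homogeneousComponent q]
  rw [map_sum, map_sum, Finset.sum_congr rfl fun i _ => hc i, Finset.sum_ite_eq]
  split_ifs with h
  · rfl
  · rw [Finset.mem_range, not_lt] at h
    rw [homogeneousComponent_eq_zero _ _ (by omega), map_zero]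

end NFB

open NFB

theorem pf_NFB : T_NFB := by
  classical
  intro L N k _ I hI l hIh hl hinj hint
  let B : Type := Po L k ⧸ I
  let φ : Po N k →+* B :=
    (Ideal.Quotient.mk I).comp (aeval (fun j : Fin N => l j.succ) : Po N k →ₐ[k] Po L k).toRingHom
  let _ : Algebra (Po N k) B := φ.toAlgebra
  have hφ : ∀ q : Po N k, algebraMap (Po N k) B q =
      Ideal.Quotient.mk I (aeval (fun j : Fin N => l j.succ) q) := fun q => rfl
  have hφi : Function.Injective (algebraMap (Po N k) B) := by
    rw [injective_iff_map_eq_zero]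
    intro q hq
    rw [hφ, Ideal.Quotient.eq_zero_iff_mem] at hq
    exact hinj q hq
  have : FaithfulSMul (Po N k) B := (faithfulSMul_iff_algebraMap_injective (Po N k) B).mpr hφi
  have : Module.IsTorsionFree (Po N k) B := inferInstance
  let θ : B := Ideal.Quotient.mk I (l 0)
  have hev : ∀ Q : Polynomial (Po N k), Polynomial.aeval θ Q =
      Ideal.Quotient.mk I (evg (fun j : Fin N => l j.succ) (l 0) Q) := by
    intro Q
    unfold evg
    rw [Polynomial.hom_eval₂]
    rfl
  have hθ : IsIntegral (Po N k) θ := by
    obtain ⟨Q, hQ, hQI⟩ := hint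
    refine ⟨Q, hQ, ?_⟩
    have h1 := hev Q
    rw [Ideal.Quotient.eq_zero_iff_mem.mpr hQI] at h1
    exact h1
  set Φ : Polynomial (Po N k) := minpoly (Po N k) θ with hΦ
  have hΦm : Φ.Monic := minpoly.monic hθ
  have hΦi : Irreducible Φ := minpoly.irreducible hθ
  set P : Po (N + 1) k := (finSuccEquiv k N).symm Φ with hP
  have hPΦ : finSuccEquiv k N P = Φ := (finSuccEquiv k N).apply_symm_apply Φ
  have hfe : ∀ q : Po (N + 1) k, Ideal.Quotient.mk I (aeval l q) =
      Polynomial.aeval θ (finSuccEquiv k N q) := by
    intro q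
    have h1 : (Ideal.Quotient.mk I).comp (aeval l : Po (N + 1) k →ₐ[k] Po L k).toRingHom =
        (Polynomial.aeval θ : Polynomial (Po N k) →ₐ[Po N k] B).toRingHom.comp
          (finSuccEquiv k N).toRingEquiv.toRingHom := by
      refine MvPolynomial.ringHom_ext (fun c => ?_) (fun i => ?_)
      · show Ideal.Quotient.mk I (aeval l (C c)) = Polynomial.aeval θ (finSuccEquiv k N (C c))
        rw [finSuccEquiv_apply, eval₂Hom_C, aeval_C]
        show _ = Polynomial.aeval θ (Polynomial.C (C c))
        rw [Polynomial.aeval_C, hφ, aeval_C]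
      · show Ideal.Quotient.mk I (aeval l (X i)) = Polynomial.aeval θ (finSuccEquiv k N (X i))
        rw [aeval_X]
        refine Fin.cases ?_ (fun j => ?_) i
        · rw [finSuccEquiv_X_zero, Polynomial.aeval_X]
        · rw [finSuccEquiv_X_succ, Polynomial.aeval_C, hφ, aeval_X]
    exact RingHom.congr_fun h1 q
  have hker : ∀ q : Po (N + 1) k, aeval l q ∈ I ↔ P ∣ q := by
    intro q
    rw [← Ideal.Quotient.eq_zero_iff_mem, hfe, minpoly.isIntegrallyClosed_dvd_iff hθ, ← hΦ,
      ← hPΦ]
    constructor
    · intro h
      have h2 := map_dvd (finSuccEquiv k N).symm h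
      rwa [AlgEquiv.symm_apply_apply, AlgEquiv.symm_apply_apply] at h2
    · intro h
      exact map_dvd (finSuccEquiv k N) h
  have hPi : Irreducible P := by
    rw [hP]
    exact (MulEquiv.irreducible_iff ((finSuccEquiv k N).symm.toRingEquiv.toMulEquiv)).mpr hΦi
  have hP0 : P ≠ 0 := hPi.ne_zero
  refine ⟨P, P.totalDegree, ⟨?_, ?_, hPi⟩, hker⟩
  · have hcomp : ∀ m, m ≠ P.totalDegree → homogeneousComponent m P = 0 := by
      intro m hm
      by_contra h0
      have h1 : aeval l P ∈ I := (hker P).mpr dvd_rfl
      have h2 := hIh _ h1 m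
      rw [comp_aeval l hl, hker] at h2
      obtain ⟨A, hA⟩ := h2
      have hA0 : A ≠ 0 := by
        rintro rfl
        rw [mul_zero] at hA
        exact h0 hA
      have h3 : (homogeneousComponent m P).totalDegree = m :=
        (homogeneousComponent_isHomogeneous m P).totalDegree h0
      rw [hA, totalDegree_mul_of_isDomain hP0 hA0] at h3
      have h4 : m ≤ P.totalDegree := by
        by_contra h5
        exact h0 (homogeneousComponent_eq_zero _ _ (by omega))
      omega
    have h6 : homogeneousComponent P.totalDegree P = P := by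
      conv_rhs => rw [← sum_homogeneousComponent P]
      symm
      refine Finset.sum_eq_single _ (fun m _ hm => hcomp m hm) fun h => ?_
      exact absurd (Finset.mem_range.mpr (Nat.lt_succ_self _)) h
    have h7 := homogeneousComponent_isHomogeneous P.totalDegree P
    rwa [h6] at h7
  · show (finSuccEquiv k N P).Monic
    rw [hPΦ]
    exact hΦm

end Pool.Agent.H68.HX
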