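import Pool.Agent.H13.HX.TargetsK
import Pool.Agent.H69.HIT.CVI

/-!
# MP_0cda1a_ag, row CDX: polynomial identities which describe the fibres
-/

set_option autoImplicit false

open MvPolynomial
open Pool.Agent.H12.ZD (pmap v O Res)
open Pool.Agent.H18.HIT Pool.Agent.H18.HX Pool.Agent.H13.HX

namespace Pool.Agent.H68.HX

namespace CDX

section abs

variable {S : Type} [CommRing S] {I : Ideal S} {α : S →+* S} {θ : S} {e : ℕ}

/-- independence of the powers -/
def Ind (I : Ideal S) (α : S →+* S) (θ : S) (e : ℕ) : Prop :=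
  ∀ c : Fin e → S, ∑ j : Fin e, θ ^ (j : ℕ) * α (c j) ∈ I → ∀ j, c j ∈ I

/-- generation by the powers -/
def Gen (I : Ideal S) (α : S →+* S) (θ : S) (e : ℕ) (u : S) : Prop :=
  ∃ (s : S) (c : Fin e → S), s ∉ I ∧ α s * u - ∑ j : Fin e, θ ^ (j : ℕ) * α (c j) ∈ I

lemma pow_notMem [hI : I.IsPrime] {s : S} (hs : s ∉ I) (n : ℕ) : s ^ n ∉ I := fun h =>
  hs (hI.mem_of_pow_mem n h)

lemma mul_notMem [hI : I.IsPrime] {s t : S} (hs : s ∉ I) (ht : t ∉ I) : s * t ∉ I := fun h =>
  (hI.mem_or_mem h).elim hs ht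

lemma Ind.scale [hI : I.IsPrime] (h : Ind I α θ e) {s : S} (hs : s ∉ I) :
    Ind I α (α s * θ) e := by
  intro c hc j
  have h1 : ∑ j : Fin e, θ ^ (j : ℕ) * α (s ^ (j : ℕ) * c j) ∈ I := by
    have h2 : ∑ j : Fin e, θ ^ (j : ℕ) * α (s ^ (j : ℕ) * c j) =
        ∑ j : Fin e, (α s * θ) ^ (j : ℕ) * α (c j) :=
      Finset.sum_congr rfl fun j _ => by rw [map_mul, map_pow, mul_pow]; ring
    rw [h2]; exact hc
  exact (hI.mem_or_mem (h _ h1 j)).resolve_left (pow_notMem hs _)

lemma Gen.scale [hI : I.IsPrime] {u : S} (h : Gen I α θ e u) {s : S} (hs : s ∉ I) :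
    Gen I α (α s * θ) e u := by
  obtain ⟨t, c, ht, htc⟩ := h
  refine ⟨s ^ (e - 1) * t, fun j => s ^ (e - 1 - (j : ℕ)) * c j, mul_notMem (pow_notMem hs _) ht, ?_⟩
  have h1 : α (s ^ (e - 1) * t) * u -
      ∑ j : Fin e, (α s * θ) ^ (j : ℕ) * α (s ^ (e - 1 - (j : ℕ)) * c j) =
      α s ^ (e - 1) * (α t * u - ∑ j : Fin e, θ ^ (j : ℕ) * α (c j)) := by
    rw [mul_sub, Finset.mul_sum, map_mul, map_pow]
    congr 1
    · ring
    · refine Finset.sum_congr rfl fun j _ => ?_
      have h2 : α s ^ (e - 1) = α s ^ (j : ℕ) * α s ^ (e - 1 - (j : ℕ)) := by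
        rw [← pow_add]; congr 1; omega
      rw [map_mul, map_pow, mul_pow, h2]
      ring
  rw [h1]
  exact I.mul_mem_left _ htc

lemma exists_phi (he : 1 ≤ e) [Nontrivial S] (s : S) (c : Fin e → S)
    (h : α s * θ ^ e - ∑ j : Fin e, θ ^ (j : ℕ) * α (c j) ∈ I) :
    ∃ Φ : Polynomial S, Φ.Monic ∧ Φ.natDegree = e ∧ Φ.eval₂ α (α s * θ) ∈ I := by
  set q : Polynomial S := ∑ j : Fin e, Polynomial.C (-(s ^ (e - 1 - (j : ℕ)) * c j)) *
    Polynomial.X ^ (j : ℕ) with hq
  have hqd : q.degree < e := Polynomial.degree_sum_fin_lt _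
  refine ⟨Polynomial.X ^ e + q, Polynomial.monic_X_pow_add hqd, ?_, ?_⟩
  · refine Polynomial.natDegree_eq_of_degree_eq_some ?_
    rw [Polynomial.degree_add_eq_left_of_degree_lt, Polynomial.degree_X_pow]
    rwa [Polynomial.degree_X_pow]
  · have h1 : (Polynomial.X ^ e + q).eval₂ α (α s * θ) =
        α s ^ (e - 1) * (α s * θ ^ e - ∑ j : Fin e, θ ^ (j : ℕ) * α (c j)) := by
      rw [Polynomial.eval₂_add, Polynomial.eval₂_X_pow, hq, Polynomial.eval₂_finsetSum, mul_sub,
        Finset.mul_sum, sub_eq_add_neg, ← Finset.sum_neg_distrib]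
      congr 1
      · have h2 : α s ^ e = α s ^ (e - 1) * α s := by rw [← pow_succ]; congr 1; omega
        rw [mul_pow, h2]; ring
      · refine Finset.sum_congr rfl fun j _ => ?_
        have h2 : α s ^ (e - 1) = α s ^ (j : ℕ) * α s ^ (e - 1 - (j : ℕ)) := by
          rw [← pow_add]; congr 1; omega
        rw [Polynomial.eval₂_mul, Polynomial.eval₂_C, Polynomial.eval₂_X_pow, map_neg, map_mul,
          map_pow, mul_pow, h2]
        ring
    rw [h1]
    exact I.mul_mem_left _ h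

lemma Ind.kernel (h : Ind I α θ e) {Φ : Polynomial S} (hΦ : Φ.Monic) (hn : Φ.natDegree = e)
    (he : 1 ≤ e) [Nontrivial S] (h0 : Φ.eval₂ α θ ∈ I) {Y : Polynomial S}
    (hY : Y.eval₂ α θ ∈ I) (j : ℕ) : (Y %ₘ Φ).coeff j ∈ I := by
  have hdeg : (Y %ₘ Φ).natDegree < e := by
    rw [← hn]
    refine Polynomial.natDegree_modByMonic_lt _ hΦ ?_
    rintro rfl
    rw [Polynomial.natDegree_one] at hn
    omega
  rcases lt_or_ge j e with hj | hj
  · refine h (fun j => (Y %ₘ Φ).coeff j) ?_ ⟨j, hj⟩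
    have h1 : (Y %ₘ Φ).eval₂ α θ = ∑ j : Fin e, θ ^ (j : ℕ) * α ((Y %ₘ Φ).coeff j) := by
      rw [Polynomial.eval₂_eq_sum_range' α hdeg, Finset.sum_range]
      exact Finset.sum_congr rfl fun j _ => mul_comm _ _
    rw [← h1]
    have h2 : (Y %ₘ Φ).eval₂ α θ = Y.eval₂ α θ - Φ.eval₂ α θ * (Y /ₘ Φ).eval₂ α θ := by
      have h3 := congrArg (Polynomial.eval₂ α θ) (Polynomial.modByMonic_add_div Y Φ)
      rw [Polynomial.eval₂_add, Polynomial.eval₂_mul] at h3
      rw [← h3, add_sub_cancel_right]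
    rw [h2]
    exact I.sub_mem hY (I.mul_mem_right _ h0)
  · rw [Polynomial.coeff_eq_zero_of_natDegree_lt (by omega)]
    exact I.zero_mem

lemma sep [hI : I.IsPrime] [CharZero (FractionRing (S ⧸ I))] (hα : ∀ c, c ∈ I ↔ α c ∈ I)
    (h : Ind I α θ e) (he : 1 ≤ e) {Φ : Polynomial S} (hΦ : Φ.Monic) (hn : Φ.natDegree = e)
    (h0 : Φ.eval₂ α θ ∈ I) : ∃ (U V : Polynomial S) (ρ : S), ρ ∉ I ∧
      ∀ i, (U * Φ + V * Polynomial.derivative Φ - Polynomial.C ρ).coeff i ∈ I := by
  classical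
  let B : Type := S ⧸ I
  let K : Type := FractionRing B
  let κ : S →+* K := (algebraMap B K).comp (Ideal.Quotient.mk I)
  have hBK : Function.Injective (algebraMap B K) := IsFractionRing.injective B K
  have hκ : ∀ a : S, κ a = 0 ↔ a ∈ I := by
    intro a
    rw [← Ideal.Quotient.eq_zero_iff_mem]
    exact map_eq_zero_iff (algebraMap B K) hBK
  let b0 : B →+* K := Ideal.Quotient.lift I (κ.comp α) (fun a ha => (hκ _).mpr ((hα a).mp ha))
  have hb0 : Function.Injective b0 := by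
    rw [injective_iff_map_eq_zero]
    intro x hx
    obtain ⟨a, rfl⟩ := Ideal.Quotient.mk_surjective x
    have h1 : κ (α a) = 0 := hx
    rw [Ideal.Quotient.eq_zero_iff_mem]
    exact (hα a).mpr ((hκ _).mp h1)
  let σ : K →+* K := IsFractionRing.lift hb0
  have hσ : ∀ a : S, σ (κ a) = κ (α a) := fun a =>
    IsFractionRing.lift_algebraMap hb0 (Ideal.Quotient.mk I a)
  let ev : Polynomial K →+* K := Polynomial.eval₂RingHom σ (κ θ)
  have hev : ∀ Y : Polynomial S, ev (Y.map κ) = κ (Y.eval₂ α θ) := by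
    intro Y
    show (Y.map κ).eval₂ σ (κ θ) = _
    rw [Polynomial.eval₂_map, Polynomial.hom_eval₂]
    have h1 : σ.comp κ = κ.comp α := RingHom.ext hσ
    rw [h1]
  have hclear : ∀ Y : Polynomial K, ∃ (s : S) (Y₁ : Polynomial S), s ∉ I ∧
      Y₁.map κ = Polynomial.C (κ s) * Y := by
    intro Y
    obtain ⟨b, hb, hbY⟩ := IsLocalization.integerNormalization_spec (nonZeroDivisors B) Y
    obtain ⟨s, hs⟩ := Ideal.Quotient.mk_surjective b
    obtain ⟨Y₁, hY₁⟩ := Polynomial.map_surjective (Ideal.Quotient.mk I)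
      Ideal.Quotient.mk_surjective (IsLocalization.integerNormalization (nonZeroDivisors B) Y)
    refine ⟨s, Y₁, ?_, ?_⟩
    · intro h1
      rw [← Ideal.Quotient.eq_zero_iff_mem, hs] at h1
      exact nonZeroDivisors.ne_zero hb h1
    · rw [← Polynomial.map_map, hY₁, hbY, Algebra.smul_def, Polynomial.algebraMap_apply, ← hs]
      rfl
  have hindK : ∀ Z : Polynomial K, Z.natDegree < e → ev Z = 0 → Z = 0 := by
    intro Z hZ hZ0
    obtain ⟨s, Y, hs, hY⟩ := hclear Z
    have hs0 : κ s ≠ 0 := fun h1 => hs ((hκ s).mp h1)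
    have hW : (Y.map κ).natDegree < e := by
      rw [hY, Polynomial.natDegree_C_mul hs0]
      exact hZ
    have hW0 : ev (Y.map κ) = 0 := by rw [hY, map_mul, hZ0, mul_zero]
    have h1 : ev (Y.map κ) = κ (∑ j : Fin e, θ ^ (j : ℕ) * α (Y.coeff j)) := by
      show (Y.map κ).eval₂ σ (κ θ) = _
      rw [Polynomial.eval₂_eq_sum_range' σ hW, Finset.sum_range, map_sum]
      refine Finset.sum_congr rfl fun j _ => ?_
      rw [Polynomial.coeff_map, hσ, map_mul, map_pow, mul_comm]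
    rw [hW0] at h1
    have h2 := h (fun j => Y.coeff j) ((hκ _).mp h1.symm)
    have h3 : Y.map κ = 0 := by
      ext j
      rw [Polynomial.coeff_zero]
      rcases lt_or_ge j e with hj | hj
      · rw [Polynomial.coeff_map]
        exact (hκ _).mpr (h2 ⟨j, hj⟩)
      · exact Polynomial.coeff_eq_zero_of_natDegree_lt (by omega)
    rw [hY] at h3
    rcases mul_eq_zero.mp h3 with h4 | h4
    · exact absurd (Polynomial.C_eq_zero.mp h4) hs0
    · exact h4
  have hM : (Φ.map κ).Monic := hΦ.map κ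
  have hMn : (Φ.map κ).natDegree = e := by rw [hΦ.natDegree_map, hn]
  have hM0 : ev (Φ.map κ) = 0 := by rw [hev]; exact (hκ _).mpr h0
  have hirr : Irreducible (Φ.map κ) := by
    rw [hM.irreducible_iff_natDegree]
    refine ⟨?_, fun f g hf hg hfg => ?_⟩
    · intro h1
      rw [h1, Polynomial.natDegree_one] at hMn
      omega
    · have h1 : f.natDegree + g.natDegree = e := by
        rw [← hMn, ← hfg, hf.natDegree_mul hg]
      have h2 : ev f * ev g = 0 := by rw [← map_mul, hfg, hM0]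
      rcases mul_eq_zero.mp h2 with h3 | h3
      · by_contra h4
        push Not at h4
        exact hf.ne_zero (hindK f (by omega) h3)
      · by_contra h4
        push Not at h4
        exact hg.ne_zero (hindK g (by omega) h3)
  obtain ⟨a, b, hab⟩ : IsCoprime (Φ.map κ) (Polynomial.derivative (Φ.map κ)) := hirr.separable
  obtain ⟨s₁, a₁, hs₁, ha₁⟩ := hclear a
  obtain ⟨s₂, b₁, hs₂, hb₁⟩ := hclear b
  refine ⟨Polynomial.C s₂ * a₁, Polynomial.C s₁ * b₁, s₁ * s₂, mul_notMem hs₁ hs₂, fun i => ?_⟩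
  rw [← hκ, ← Polynomial.coeff_map]
  have h1 : (Polynomial.C s₂ * a₁ * Φ + Polynomial.C s₁ * b₁ * Polynomial.derivative Φ -
      Polynomial.C (s₁ * s₂)).map κ = 0 := by
    rw [Polynomial.map_sub, Polynomial.map_add, Polynomial.map_mul, Polynomial.map_mul,
      Polynomial.map_mul, Polynomial.map_mul, ha₁, hb₁, ← Polynomial.derivative_map,
      Polynomial.map_C, Polynomial.map_C, Polynomial.map_C, map_mul, Polynomial.C_mul]
    calc Polynomial.C (κ s₂) * (Polynomial.C (κ s₁) * a) * Φ.map κ +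
          Polynomial.C (κ s₁) * (Polynomial.C (κ s₂) * b) * Polynomial.derivative (Φ.map κ) -
          Polynomial.C (κ s₁) * Polynomial.C (κ s₂)
        = Polynomial.C (κ s₁) * Polynomial.C (κ s₂) *
          (a * Φ.map κ + b * Polynomial.derivative (Φ.map κ) - 1) := by ring
      _ = 0 := by rw [hab, sub_self, mul_zero]
  rw [h1, Polynomial.coeff_zero]

end abs

end CDX

open CDX

theorem pf_CDX : T_CDX := by
  classical
  intro N e k _ _ P F θ hP hS he hgen hind
  set I : Ideal (Po (N + 1) k) := Ideal.span {P} with hI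
  have hIp : I.IsPrime := (Ideal.span_singleton_prime hP.ne_zero).mpr hP.prime
  have hmem : ∀ c, c ∈ I ↔ P ∣ c := fun c => Ideal.mem_span_singleton
  set α : Po (N + 1) k →+* Po (N + 1) k :=
    (aeval F : Po (N + 1) k →ₐ[k] Po (N + 1) k).toRingHom with hα
  have hαI : ∀ c, c ∈ I ↔ α c ∈ I := fun c => ⟨hS.inv c, hS.inj c⟩
  have hind' : Ind I α θ e := hind
  have hgen' : ∀ u, Gen I α θ e u := hgen
  obtain ⟨s, c, hs, hsc⟩ := hgen' (θ ^ e)
  obtain ⟨Φ, hΦ, hΦn, hΦ0⟩ := exists_phi he s c hsc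
  set θ' : Po (N + 1) k := α s * θ with hθ'
  have hind2 : Ind I α θ' e := hind'.scale hs
  have hgen2 : ∀ u, Gen I α θ' e u := fun u => (hgen' u).scale hs
  -- the kernel
  have hker : ∀ Y : Polynomial (Po (N + 1) k), Y.eval₂ α θ' ∈ I →
      ∃ A B : Polynomial (Po (N + 1) k), Y = Φ * A + Polynomial.C P * B := by
    intro Y hY
    have h1 := hind2.kernel hΦ hΦn he hΦ0 hY
    have h2 : Polynomial.C P ∣ Y %ₘ Φ :=
      (Polynomial.C_dvd_iff_dvd_coeff _ _).mpr fun i => (hmem _).mp (h1 i)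
    obtain ⟨B, hB⟩ := h2
    refine ⟨Y /ₘ Φ, B, ?_⟩
    rw [← hB]
    exact ((add_comm _ _).trans (Polynomial.modByMonic_add_div Y Φ)).symm
  -- the coordinates
  choose t c' ht htc using fun i : Fin (N + 1) => hgen2 (X i)
  set Δ : Po (N + 1) k := ∏ l, t l with hΔ
  have hΔI : Δ ∉ I := by
    rw [hΔ]
    intro h1
    obtain ⟨l, -, hl⟩ := (hIp.prod_mem_iff).mp h1
    exact ht l hl
  set R : Fin (N + 1) → Polynomial (Po (N + 1) k) := fun i =>
    Polynomial.C (∏ l ∈ Finset.univ.erase i, t l) *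
      ∑ j : Fin e, Polynomial.C (c' i j) * Polynomial.X ^ (j : ℕ) with hR
  have hRi : ∀ i, α Δ * X i - (R i).eval₂ α θ' ∈ I := by
    intro i
    have h1 : α Δ * X i - (R i).eval₂ α θ' = α (∏ l ∈ Finset.univ.erase i, t l) *
        (α (t i) * X i - ∑ j : Fin e, θ' ^ (j : ℕ) * α (c' i j)) := by
      have h2 : α Δ = α (∏ l ∈ Finset.univ.erase i, t l) * α (t i) := by
        rw [← map_mul, Finset.prod_erase_mul _ _ (Finset.mem_univ i)]
      have h3 : (R i).eval₂ α θ' = α (∏ l ∈ Finset.univ.erase i, t l) *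
          ∑ j : Fin e, θ' ^ (j : ℕ) * α (c' i j) := by
        show Polynomial.eval₂ α θ' (Polynomial.C (∏ l ∈ Finset.univ.erase i, t l) *
          ∑ j : Fin e, Polynomial.C (c' i j) * Polynomial.X ^ (j : ℕ)) = _
        rw [Polynomial.eval₂_mul, Polynomial.eval₂_C, Polynomial.eval₂_finsetSum]
        refine congrArg (fun z => α (∏ l ∈ Finset.univ.erase i, t l) * z)
          (Finset.sum_congr rfl fun j _ => ?_)
        rw [Polynomial.eval₂_mul, Polynomial.eval₂_C, Polynomial.eval₂_X_pow, mul_comm]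
      rw [h2, h3]
      ring
    rw [h1]
    exact I.mul_mem_left _ (htc i)
  set D : ℕ := max P.totalDegree (max (deg F) θ'.totalDegree) with hD
  have hPD : P.totalDegree ≤ D := le_max_left _ _
  have hFD' : deg F ≤ D := (le_max_left _ _).trans (le_max_right _ _)
  have hθD : θ'.totalDegree ≤ D := (le_max_right _ _).trans (le_max_right _ _)
  have hFD : ∀ i, (F i).totalDegree ≤ D := fun i =>
    (Finset.le_sup (f := fun i => (F i).totalDegree) (Finset.mem_univ i)).trans hFD'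
  -- homogenization
  set π := Ideal.Quotient.mk I with hπ
  have hhev : ∀ q : Po (N + 1) k, q.totalDegree ≤ D →
      (hev R (Polynomial.C Δ) D q).eval₂ α θ' - α Δ ^ D * q ∈ I := by
    intro q hq
    rw [← Ideal.Quotient.eq_zero_iff_mem, map_sub, sub_eq_zero, map_mul, map_pow]
    set ψ : Polynomial (Po (N + 1) k) →+* (Po (N + 1) k ⧸ I) :=
      π.comp (Polynomial.eval₂RingHom α θ') with hψ
    have h1 : ∀ c : k, ψ (algebraMap k (Polynomial (Po (N + 1) k)) c) =
        algebraMap k (Po (N + 1) k ⧸ I) c := by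
      intro c
      show π ((algebraMap k (Polynomial (Po (N + 1) k)) c).eval₂ α θ') = _
      rw [Polynomial.algebraMap_apply, Polynomial.eval₂_C]
      have h2 : α (algebraMap k (Po (N + 1) k) c) = algebraMap k (Po (N + 1) k) c :=
        (aeval F : Po (N + 1) k →ₐ[k] Po (N + 1) k).commutes c
      rw [h2]
      rfl
    have h3 := Pool.Agent.H69.HIT.map_hev ψ h1 R (Polynomial.C Δ) D q
    have h4 : ψ (Polynomial.C Δ) = π (α Δ) := by
      show π ((Polynomial.C Δ).eval₂ α θ') = _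
      rw [Polynomial.eval₂_C]
    have h5 : (fun i => ψ (R i)) = fun i => π (α Δ) * π (X i) := by
      funext i
      show π ((R i).eval₂ α θ') = _
      rw [← map_mul]
      exact ((Ideal.Quotient.mk_eq_mk_iff_sub_mem _ _).mpr (hRi i)).symm
    rw [h4, h5, Pool.Agent.H69.HIT.hev_eq _ _ _ _ hq] at h3
    have h6 : aeval (fun i => π (X i)) q = π q := by
      have h7 : (aeval (fun i => π (X i)) : Po (N + 1) k →ₐ[k] (Po (N + 1) k ⧸ I)) =
          Ideal.Quotient.mkₐ k I := by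
        refine MvPolynomial.algHom_ext fun i => ?_
        rw [aeval_X]
        rfl
      rw [h7]
      rfl
    rw [h6] at h3
    exact h3
  have hsub : ∀ q r : Po (N + 1) k, ∀ Y Z : Polynomial (Po (N + 1) k), Y.eval₂ α θ' - q ∈ I →
      q - Z.eval₂ α θ' ∈ I → (Y - Z).eval₂ α θ' ∈ I := by
    intro q r Y Z h1 h2
    rw [Polynomial.eval₂_sub]
    have h3 := I.add_mem h1 h2
    rwa [sub_add_sub_cancel] at h3
  have hchar : CharZero (FractionRing (Po (N + 1) k ⧸ I)) :=
    charZero_of_injective_algebraMap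
      (algebraMap k (FractionRing (Po (N + 1) k ⧸ I))).injective
  obtain ⟨U, V, ρ, hρ, hUV⟩ := sep hαI hind2 he hΦ hΦn hΦ0
  refine ⟨D, Φ, θ', ρ, Δ, R, fun h => hρ ((hmem _).mpr h), fun h => hΔI ((hmem _).mpr h), ?_⟩
  refine
    { monic := hΦ
      nat := hΦn
      degP := hPD
      degF := hFD'
      degθ := hθD
      sep := ?_
      onX := ?_
      inv := ?_
      prim := ?_ }
  · obtain ⟨W, hW⟩ := (Polynomial.C_dvd_iff_dvd_coeff P _).mpr fun i => (hmem _).mp (hUV i)
    exact ⟨U, V, W, by rw [← hW]; ring⟩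
  · refine hker _ ?_
    have h1 := hhev P hPD
    have h2 : α Δ ^ D * P ∈ I := I.mul_mem_left _ ((hmem _).mpr dvd_rfl)
    have h3 := I.add_mem h1 h2
    rwa [sub_add_cancel] at h3
  · intro i
    refine hker _ (hsub (α Δ ^ D * F i) 0 _ _ (hhev (F i) (hFD i)) ?_)
    rw [Polynomial.eval₂_C, map_mul, map_pow]
    have h1 : α (X i) = F i := aeval_X F i
    rw [h1, sub_self]
    exact I.zero_mem
  · refine hker _ (hsub (α Δ ^ D * θ') 0 _ _ (hhev θ' hθD) ?_)
    rw [Polynomial.eval₂_mul, Polynomial.eval₂_C, Polynomial.eval₂_X, map_pow, sub_self]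
    exact I.zero_mem

end Pool.Agent.H68.HX
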